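import Mathlib

/-!
# Two bases with `(a³ - 1)(b³ - 1)` a square are not close

If `1 < a < b` and `(a³ - 1)(b³ - 1)` is a square, then `a + b < (b - a)³`.
-/

set_option autoImplicit false

namespace Pool.Agent.Helper3.CG

/-- the finite check for one `h` -/
def chk (h : ℕ) : Bool :=
  (List.range (3 * h / 4 + 1)).all fun N => (List.range (300 / h + 1)).all fun K =>
    N == 0 || !((3 * h ^ 4 - K) % (4 * N) == 0) ||
      !(K * (2 * ((3 * h ^ 4 - K) / (4 * N)) ^ 2) + h ^ 6 + 64 * N ==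
        576 * h ^ 2 * ((3 * h ^ 4 - K) / (4 * N)) + 2 * N ^ 2 + 3 * K * h ^ 2)

theorem chk_all : (List.range 299).all (fun i => chk (i + 1)) = true := by
  decide +kernel

/-- the small cases -/
def chk2 (h : ℕ) : Bool :=
  (List.range 151).all fun a => decide (a < 2) || decide (2 * a + h < h ^ 3) ||
    !(Nat.sqrt ((a ^ 3 - 1) * ((a + h) ^ 3 - 1)) * Nat.sqrt ((a ^ 3 - 1) * ((a + h) ^ 3 - 1)) ==
      (a ^ 3 - 1) * ((a + h) ^ 3 - 1))

theorem chk2_all : (List.range 6).all (fun i => chk2 (i + 1)) = true := by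
  decide +kernel

theorem chk_spec (h N K T : ℕ) (hh : 1 ≤ h) (hh2 : h ≤ 299) (hN : 1 ≤ N) (hN2 : 4 * N ≤ 3 * h)
    (hK : K * h ≤ 300) (hT : 4 * N * T + K = 3 * h ^ 4) :
    K * (2 * T ^ 2) + h ^ 6 + 64 * N ≠ 576 * h ^ 2 * T + 2 * N ^ 2 + 3 * K * h ^ 2 := by
  intro he
  have h1 := List.all_eq_true.1 chk_all (h - 1) (List.mem_range.2 (by omega))
  rw [Nat.sub_add_cancel hh] at h1
  have h2 := List.all_eq_true.1 h1 N (List.mem_range.2 (by omega))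
  have h3 := List.all_eq_true.1 h2 K (List.mem_range.2 (by
    have : K ≤ 300 / h := (Nat.le_div_iff_mul_le hh).2 hK
    omega))
  have e1 : 3 * h ^ 4 - K = 4 * N * T := by omega
  have e2 : (4 * N * T) / (4 * N) = T := Nat.mul_div_cancel_left T (by omega)
  have e3 : (4 * N * T) % (4 * N) = 0 := Nat.mul_mod_right _ _
  rw [e1, e2, e3, he] at h3
  simp only [beq_self_eq_true, Bool.not_true, Bool.or_false, beq_iff_eq] at h3
  omega

theorem chk2_spec (a h x : ℕ) (ha : 2 ≤ a) (ha2 : a ≤ 150) (hh : 1 ≤ h) (hh2 : h ≤ 6)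
    (hc : h ^ 3 ≤ 2 * a + h) : (a ^ 3 - 1) * ((a + h) ^ 3 - 1) ≠ x ^ 2 := by
  intro he
  have h1 := List.all_eq_true.1 chk2_all (h - 1) (List.mem_range.2 (by omega))
  rw [Nat.sub_add_cancel hh] at h1
  have h2 := List.all_eq_true.1 h1 a (List.mem_range.2 (by omega))
  rw [he, Nat.sqrt_eq' x] at h2
  have e1 : decide (a < 2) = false := decide_eq_false (by omega)
  have e2 : decide (2 * a + h < h ^ 3) = false := decide_eq_false (by omega)
  have e3 : (x * x == x ^ 2) = true := by rw [pow_two]; exact beq_self_eq_true _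
  rw [e1, e2, e3] at h2
  exact absurd h2 (by simp)

/-- powers of `h` -/
theorem pows (T h : ℤ) (h1 : 1 ≤ h) (hhT : h ^ 3 ≤ T) :
    h ≤ h ^ 2 ∧ h ^ 2 ≤ T ∧ h ^ 4 ≤ h * T ∧ h ^ 6 ≤ T ^ 2 := by
  have hq1 : h ≤ h ^ 2 := by nlinarith
  have hq2 : h ^ 2 ≤ h ^ 3 := by nlinarith [pow_pos (by linarith : (0 : ℤ) < h) 2]
  have hh3 : 1 ≤ h ^ 3 := by nlinarith
  refine ⟨hq1, le_trans hq2 hhT, ?_, ?_⟩
  · have : h ^ 4 = h * h ^ 3 := by ring
    rw [this]; exact mul_le_mul_of_nonneg_left hhT (by linarith)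
  · have : h ^ 6 = h ^ 3 * h ^ 3 := by ring
    rw [this, pow_two T]; exact mul_le_mul hhT hhT (by linarith) (by linarith)

theorem first (T h N x : ℤ)
    (hE : 256 * x ^ 2 = 4 * (T ^ 2 - h ^ 2) ^ 3 - 64 * (T ^ 3 + 3 * h ^ 2 * T) + 256)
    (hN : 16 * x = 2 * T ^ 3 - 3 * h ^ 2 * T - 16 + N) :
    N * (N + 2 * (2 * T ^ 3 - 3 * h ^ 2 * T - 16)) =
      3 * T ^ 2 * h ^ 4 - 4 * h ^ 6 - 288 * h ^ 2 * T := by
  linear_combination (-(16 * x + (2 * T ^ 3 - 3 * h ^ 2 * T - 16) + N)) * hN + hE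

theorem second (T h N : ℤ)
    (E1 : N * (N + 2 * (2 * T ^ 3 - 3 * h ^ 2 * T - 16)) =
      3 * T ^ 2 * h ^ 4 - 4 * h ^ 6 - 288 * h ^ 2 * T) :
    (3 * h ^ 4 - 4 * N * T) * (2 * T ^ 2 - 3 * h ^ 2) + h ^ 6 + 64 * N =
      576 * h ^ 2 * T + 2 * N ^ 2 := by
  linear_combination (-2) * E1

theorem bBig (T q : ℤ) (hT : 300 < T) (hq : q ≤ T) :
    T ^ 3 ≤ 2 * T ^ 3 - 3 * q * T - 16 := by
  have e1 : q * T ≤ T ^ 2 := by nlinarith
  have e2 : 3 * T ^ 2 + 16 ≤ T ^ 3 := by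
    have : 0 < T ^ 2 := pow_pos (by linarith) 2
    nlinarith
  nlinarith

theorem rhsPos (T h : ℤ) (hT : 300 < T) (h1 : 1 ≤ h) (hhT : h ^ 3 ≤ T) :
    0 < 3 * T ^ 2 * h ^ 4 - 4 * h ^ 6 - 288 * h ^ 2 * T := by
  have h3 : 0 < h ^ 3 := pow_pos (by linarith) 3
  have h2 : 0 < h ^ 2 := pow_pos (by linarith) 2
  have h4 : 0 < h ^ 4 := pow_pos (by linarith) 4
  have a1 : h ^ 3 ≤ h ^ 4 := by
    have : h ^ 4 = h * h ^ 3 := by ring
    rw [this]; nlinarith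
  have a2 : h ^ 2 ≤ h ^ 4 := by
    have : h ^ 4 = h ^ 2 * h ^ 2 := by ring
    rw [this]; nlinarith
  have f2 : h ^ 6 ≤ h ^ 3 * T := by
    have : h ^ 6 = h ^ 3 * h ^ 3 := by ring
    rw [this]; exact mul_le_mul_of_nonneg_left hhT h3.le
  have f3 : h ^ 3 * T ≤ h ^ 4 * T := mul_le_mul_of_nonneg_right a1 (by linarith)
  have f4 : h ^ 2 * T ≤ h ^ 4 * T := mul_le_mul_of_nonneg_right a2 (by linarith)
  have f5 : 0 < h ^ 4 * T := mul_pos h4 (by linarith)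
  have f6 : T ^ 2 * h ^ 4 = T * (h ^ 4 * T) := by ring
  have f7 : 300 * (h ^ 4 * T) ≤ T * (h ^ 4 * T) := mul_le_mul_of_nonneg_right hT.le f5.le
  linarith

theorem nPos (N B C : ℤ) (hNB : 1 ≤ N + B) (_hB : 0 ≤ B) (hC : 0 < C)
    (E : N * (N + 2 * B) = C) : 1 ≤ N := by
  by_contra hcon
  have hN' : N ≤ 0 := by linarith
  have e2 : N * (N + 2 * B) ≤ 0 := mul_nonpos_of_nonpos_of_nonneg hN' (by linarith)
  linarith

theorem nUp (T h N B : ℤ) (hT : 300 < T) (h1 : 1 ≤ h) (hhT : h ^ 3 ≤ T) (hBT : T ^ 3 ≤ B)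
    (hN0 : 1 ≤ N)
    (E : N * (N + 2 * B) = 3 * T ^ 2 * h ^ 4 - 4 * h ^ 6 - 288 * h ^ 2 * T) : 2 * N ≤ 3 * h := by
  obtain ⟨-, -, h4, -⟩ := pows T h h1 hhT
  have hT2 : 0 < T ^ 2 := pow_pos (by linarith) 2
  have hT3 : 0 < T ^ 3 := pow_pos (by linarith) 3
  have f1 : N * T ^ 3 ≤ N * B := mul_le_mul_of_nonneg_left hBT (by linarith)
  have f2 : 0 < N * N := mul_pos (by linarith) (by linarith)
  have f3 : 0 < h ^ 6 := pow_pos (by linarith) 6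
  have f4 : 0 < h ^ 2 * T := mul_pos (pow_pos (by linarith) 2) (by linarith)
  have f5 : T ^ 2 * h ^ 4 ≤ T ^ 2 * (h * T) := mul_le_mul_of_nonneg_left h4 hT2.le
  have e3 : (2 * N) * T ^ 3 < (3 * h) * T ^ 3 := by
    have g1 : N * (N + 2 * B) = N * N + 2 * (N * B) := by ring
    have g2 : (3 * h) * T ^ 3 = 3 * (T ^ 2 * (h * T)) := by ring
    have g3 : (2 * N) * T ^ 3 = 2 * (N * T ^ 3) := by ring
    rw [g2, g3]
    rw [g1] at E
    linarith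
  exact (lt_of_mul_lt_mul_right e3 hT3.le).le

theorem dPos (T h : ℤ) (hT : 300 < T) (h1 : 1 ≤ h) (hhT : h ^ 3 ≤ T) :
    T ^ 2 < 2 * T ^ 2 - 3 * h ^ 2 := by
  obtain ⟨-, h2, -, -⟩ := pows T h h1 hhT
  nlinarith

theorem kNonneg (T h N K : ℤ) (hT : 300 < T) (h1 : 1 ≤ h) (hhT : h ^ 3 ≤ T)
    (hNu : 2 * N ≤ 3 * h)
    (E : K * (2 * T ^ 2 - 3 * h ^ 2) + h ^ 6 + 64 * N = 576 * h ^ 2 * T + 2 * N ^ 2) : 0 ≤ K := by
  obtain ⟨hq1, hq2, -, h6⟩ := pows T h h1 hhT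
  by_contra hcon
  have hK' : K ≤ -1 := by linarith
  have hD := dPos T h hT h1 hhT
  have hT2 : 0 < T ^ 2 := pow_pos (by linarith) 2
  have e1 : K * (2 * T ^ 2 - 3 * h ^ 2) ≤ (-1) * (2 * T ^ 2 - 3 * h ^ 2) :=
    mul_le_mul_of_nonneg_right hK' (by linarith)
  have e2 : 64 * N ≤ 96 * h := by linarith
  have e3 : h ^ 2 * 300 ≤ h ^ 2 * T := mul_le_mul_of_nonneg_left hT.le (by linarith)
  have e4 : 0 ≤ N ^ 2 := sq_nonneg N
  have e5 : 0 < h ^ 2 := pow_pos (by linarith) 2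
  linarith

theorem kUp (T h N K : ℤ) (hT : 300 < T) (h1 : 1 ≤ h) (hhT : h ^ 3 ≤ T)
    (hN0 : 1 ≤ N) (hNu : 2 * N ≤ 3 * h)
    (E : K * (2 * T ^ 2 - 3 * h ^ 2) + h ^ 6 + 64 * N = 576 * h ^ 2 * T + 2 * N ^ 2) :
    K * h ≤ 300 := by
  obtain ⟨hq1, hq2, -, h6⟩ := pows T h h1 hhT
  have hD := dPos T h hT h1 hhT
  have hT2 : 0 < T ^ 2 := pow_pos (by linarith) 2
  by_contra hcon
  have hK' : 301 ≤ K * h := by linarith
  have e1 : 301 * (2 * T ^ 2 - 3 * h ^ 2) ≤ (K * h) * (2 * T ^ 2 - 3 * h ^ 2) :=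
    mul_le_mul_of_nonneg_right hK' (by linarith)
  have e2 : (K * h) * (2 * T ^ 2 - 3 * h ^ 2) =
      h * (576 * h ^ 2 * T + 2 * N ^ 2 - h ^ 6 - 64 * N) := by
    have : K * (2 * T ^ 2 - 3 * h ^ 2) = 576 * h ^ 2 * T + 2 * N ^ 2 - h ^ 6 - 64 * N := by
      linarith
    rw [← this]; ring
  have e3 : h * (576 * h ^ 2 * T + 2 * N ^ 2 - h ^ 6 - 64 * N) ≤
      576 * T ^ 2 + 5 * T := by
    have g1 : 4 * N ^ 2 ≤ 9 * h ^ 2 := by nlinarith
    have g2 : h * (576 * h ^ 2 * T) = 576 * (h ^ 3 * T) := by ring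
    have g3 : h ^ 3 * T ≤ T * T := mul_le_mul_of_nonneg_right hhT (by linarith)
    have g4 : h * (4 * N ^ 2) ≤ h * (9 * h ^ 2) := mul_le_mul_of_nonneg_left g1 (by linarith)
    have g5 : h * (9 * h ^ 2) = 9 * h ^ 3 := by ring
    have g6 : 0 ≤ h * h ^ 6 := mul_nonneg (by linarith) (pow_nonneg (by linarith) 6)
    have g7 : 0 ≤ h * (64 * N) := mul_nonneg (by linarith) (by linarith)
    have g8 : h * (576 * h ^ 2 * T + 2 * N ^ 2 - h ^ 6 - 64 * N) =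
      h * (576 * h ^ 2 * T) + h * (4 * N ^ 2) / 2 - h * h ^ 6 - h * (64 * N) := by
      have : h * (4 * N ^ 2) / 2 = h * (2 * N ^ 2) := by
        have : h * (4 * N ^ 2) = (h * (2 * N ^ 2)) * 2 := by ring
        rw [this, Int.mul_ediv_cancel _ (by norm_num)]
      rw [this]; ring
    rw [g8]
    have g9 : h * (4 * N ^ 2) / 2 ≤ 5 * T := by
      rw [g5] at g4
      omega
    have g10 : T * T = T ^ 2 := by ring
    rw [g10] at g3
    linarith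
  have e4 : 300 * T ≤ T ^ 2 := by nlinarith
  nlinarith

/-- the case of large `T` -/
theorem far (T h N K : ℤ) (hT : 300 < T) (h1 : 1 ≤ h) (hhT : h ^ 3 ≤ T)
    (hT2 : 300 * h ^ 2 ≤ T) (hN0 : 1 ≤ N) (hNu : 2 * N ≤ 3 * h) (hK0 : 0 ≤ K)
    (hK : 4 * N * T + K = 3 * h ^ 4)
    (E : K * (2 * T ^ 2 - 3 * h ^ 2) + h ^ 6 + 64 * N = 576 * h ^ 2 * T + 2 * N ^ 2) : False := by
  have hh2 : 0 < h ^ 2 := pow_pos (by linarith) 2
  have hK1 : K ≤ 0 := by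
    by_contra hcon
    have hK' : 1 ≤ K := by linarith
    have e0 : 0 ≤ 2 * T ^ 2 - 3 * h ^ 2 := by nlinarith
    have e1 : 1 * (2 * T ^ 2 - 3 * h ^ 2) ≤ K * (2 * T ^ 2 - 3 * h ^ 2) :=
      mul_le_mul_of_nonneg_right hK' e0
    have e2 : 300 * h ^ 2 * T ≤ T * T := mul_le_mul_of_nonneg_right hT2 (by linarith)
    have g1 : 4 * N ^ 2 ≤ 9 * h ^ 2 := by nlinarith
    have e3 : 300 * T ≤ T * T := mul_le_mul_of_nonneg_right hT.le (by linarith)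
    have e4 : 0 ≤ h ^ 6 := pow_nonneg (by linarith) 6
    nlinarith
  have hK2 : K = 0 := le_antisymm hK1 hK0
  subst hK2
  have hNT : 4 * N * T = 3 * h ^ 4 := by linarith
  -- `400 N ≤ h ^ 2`
  have hN400 : 400 * N ≤ h ^ 2 := by
    have e1 : 4 * N * (300 * h ^ 2) ≤ 4 * N * T :=
      mul_le_mul_of_nonneg_left hT2 (by linarith)
    have e2 : (400 * N) * h ^ 2 ≤ h ^ 2 * h ^ 2 := by
      have : h ^ 2 * h ^ 2 = h ^ 4 := by ring
      rw [this]; linarith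
    exact le_of_mul_le_mul_right e2 hh2
  have hfin : (N - 432) * h ^ 6 = 2 * N ^ 2 * (N - 32) := by
    linear_combination N * E + 144 * h ^ 2 * hNT
  have hN2 : N ≤ N ^ 2 := by nlinarith
  have hN3 : N ^ 2 ≤ N ^ 3 := by nlinarith [pow_pos (by linarith : (0 : ℤ) < N) 2]
  have h6 : 64000000 * N ^ 3 ≤ h ^ 6 := by
    have e1 : (400 * N) ^ 3 ≤ (h ^ 2) ^ 3 := pow_le_pow_left₀ (by linarith) hN400 3
    have e2 : (400 * N) ^ 3 = 64000000 * N ^ 3 := by ring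
    have e3 : (h ^ 2) ^ 3 = h ^ 6 := by ring
    rw [e2, e3] at e1
    exact e1
  have hN2p : 0 < N ^ 2 := pow_pos (by linarith) 2
  have h6p : 0 < h ^ 6 := by linarith
  rcases lt_trichotomy N 432 with hlt | heq | hgt
  · have e1 : (N - 432) * h ^ 6 ≤ (-1) * h ^ 6 :=
      mul_le_mul_of_nonneg_right (by linarith) h6p.le
    have e2 : 2 * N ^ 2 * (-31) ≤ 2 * N ^ 2 * (N - 32) :=
      mul_le_mul_of_nonneg_left (by linarith) (by linarith)
    linarith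
  · rw [heq] at hfin
    norm_num at hfin
  · have e1 : 1 * h ^ 6 ≤ (N - 432) * h ^ 6 :=
      mul_le_mul_of_nonneg_right (by linarith) h6p.le
    have e2 : 2 * N ^ 2 * (N - 32) ≤ 2 * N ^ 3 := by
      have : 2 * N ^ 2 * (N - 32) = 2 * N ^ 3 - 64 * N ^ 2 := by ring
      rw [this]; linarith
    linarith

theorem core (T h N x : ℤ) (hx : 1 ≤ x) (h1 : 1 ≤ h) (hT : 300 < T) (hhT : h ^ 3 ≤ T)
    (hE : 256 * x ^ 2 = 4 * (T ^ 2 - h ^ 2) ^ 3 - 64 * (T ^ 3 + 3 * h ^ 2 * T) + 256)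
    (hN : 16 * x = 2 * T ^ 3 - 3 * h ^ 2 * T - 16 + N) : False := by
  obtain ⟨hq1, hq2, h4, h6⟩ := pows T h h1 hhT
  have E1 := first T h N x hE hN
  have E2 := second T h N E1
  have hBT := bBig T (h ^ 2) hT hq2
  have hT3 : 0 < T ^ 3 := pow_pos (by linarith) 3
  have hN0 : 1 ≤ N := nPos N _ _ (by linarith) (by linarith) (rhsPos T h hT h1 hhT) E1
  have hNu := nUp T h N _ hT h1 hhT hBT hN0 E1
  obtain ⟨K, hK⟩ : ∃ K : ℤ, K = 3 * h ^ 4 - 4 * N * T := ⟨_, rfl⟩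
  rw [← hK] at E2
  have hK0 := kNonneg T h N K hT h1 hhT hNu E2
  have hKu := kUp T h N K hT h1 hhT hN0 hNu E2
  have hKT : 4 * N * T + K = 3 * h ^ 4 := by linarith
  by_cases hfar : 300 * h ^ 2 ≤ T
  · exact far T h N K hT h1 hhT hfar hN0 hNu hK0 hKT E2
  · have hlt : T < 300 * h ^ 2 := not_le.1 hfar
    have hh : h ≤ 299 := by
      by_contra hcon
      have : 300 ≤ h := by linarith
      have : 300 * h ^ 2 ≤ h ^ 3 := by
        have e : h ^ 3 = h * h ^ 2 := by ring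
        rw [e]; exact mul_le_mul_of_nonneg_right this (by linarith)
      linarith
    have hN4 : 4 * N ≤ 3 * h := by
      have e1 : 4 * N * h ^ 3 ≤ 4 * N * T := mul_le_mul_of_nonneg_left hhT (by linarith)
      have e2 : (4 * N) * h ^ 3 ≤ (3 * h) * h ^ 3 := by
        have : (3 * h) * h ^ 3 = 3 * h ^ 4 := by ring
        rw [this]; linarith
      exact le_of_mul_le_mul_right e2 (pow_pos (by linarith) 3)
    -- to natural numbers
    obtain ⟨h', rfl⟩ := Int.eq_ofNat_of_zero_le (by linarith : 0 ≤ h)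
    obtain ⟨N', rfl⟩ := Int.eq_ofNat_of_zero_le (by linarith : 0 ≤ N)
    obtain ⟨K', rfl⟩ := Int.eq_ofNat_of_zero_le hK0
    obtain ⟨T', rfl⟩ := Int.eq_ofNat_of_zero_le (by linarith : 0 ≤ T)
    refine chk_spec h' N' K' T' (by exact_mod_cast h1) (by exact_mod_cast hh)
      (by exact_mod_cast hN0) (by exact_mod_cast hN4) (by exact_mod_cast hKu)
      (by exact_mod_cast hKT) ?_
    have e : (K' : ℤ) * (2 * (T' : ℤ) ^ 2) + (h' : ℤ) ^ 6 + 64 * (N' : ℤ) =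
        576 * (h' : ℤ) ^ 2 * (T' : ℤ) + 2 * (N' : ℤ) ^ 2 + 3 * (K' : ℤ) * (h' : ℤ) ^ 2 := by
      linear_combination E2
    exact_mod_cast e

/-- If `1 < a < b` and `(a³ - 1)(b³ - 1)` is a square, then `a + b < (b - a)³`. -/
theorem gap (a b x : ℤ) (ha : 2 ≤ a) (hab : a < b) (hx : (a ^ 3 - 1) * (b ^ 3 - 1) = x ^ 2) :
    a + b < (b - a) ^ 3 := by
  by_contra hcon
  have hc : (b - a) ^ 3 ≤ a + b := not_lt.1 hcon
  have hx0 : x ≠ 0 := by
    rintro rfl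
    have e1 : 0 < a ^ 3 - 1 := by
      have : (2 : ℤ) ^ 3 ≤ a ^ 3 := pow_le_pow_left₀ (by norm_num) ha 3
      linarith
    have e2 : 0 < b ^ 3 - 1 := by
      have : (2 : ℤ) ^ 3 ≤ b ^ 3 := pow_le_pow_left₀ (by norm_num) (by linarith) 3
      linarith
    have := mul_pos e1 e2
    rw [hx] at this
    norm_num at this
  by_cases hT : 300 < a + b
  · have hxx : (a ^ 3 - 1) * (b ^ 3 - 1) = |x| ^ 2 := by rw [sq_abs]; exact hx
    refine core (a + b) (b - a)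
      (16 * |x| - (2 * (a + b) ^ 3 - 3 * (b - a) ^ 2 * (a + b) - 16)) |x|
      (Int.one_le_abs hx0) (by linarith) hT hc ?_ (by ring)
    rw [← hxx]
    ring
  · obtain ⟨a', rfl⟩ := Int.eq_ofNat_of_zero_le (by linarith : 0 ≤ a)
    obtain ⟨h', hh'⟩ := Int.eq_ofNat_of_zero_le (by linarith : 0 ≤ b - a')
    have hb : b = (a' : ℤ) + h' := by linarith
    subst hb
    have e0 : (a' : ℤ) + h' - a' = h' := by ring
    rw [e0] at hc
    have hc' : h' ^ 3 ≤ 2 * a' + h' := by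
      have : ((h' : ℤ)) ^ 3 ≤ 2 * a' + h' := by linarith
      exact_mod_cast this
    have ha' : 2 ≤ a' := by exact_mod_cast ha
    have h1' : 1 ≤ h' := by
      have : (0 : ℤ) < h' := by linarith
      exact_mod_cast this
    have hT' : 2 * a' + h' ≤ 300 := by
      have : 2 * (a' : ℤ) + h' ≤ 300 := by linarith
      exact_mod_cast this
    have hh6 : h' ≤ 6 := by
      by_contra hcon'
      have : 7 ^ 3 ≤ h' ^ 3 := Nat.pow_le_pow_left (by omega) 3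
      omega
    refine chk2_spec a' h' x.natAbs ha' (by omega) h1' hh6 hc' ?_
    have e1 : 1 ≤ a' ^ 3 := Nat.one_le_pow _ _ (by omega)
    have e2 : 1 ≤ (a' + h') ^ 3 := Nat.one_le_pow _ _ (by omega)
    zify [e1, e2]
    rw [sq_abs]
    exact hx

end Pool.Agent.Helper3.CG
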